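import Pool.Agent.Work.MP_5885b3_lc.Defs
import Pool.Agent.Work.MP_5885b3_lc.Q1Defs
import Pool.Agent.Work.MP_5885b3_lc.Q1Comp

/-!
Q1: the representation problem and the finite representation problem for `RWIS` are undecidable.
A finite algebra is given by the tables of its two operations.
-/

namespace Pool.Agent.Results.MP_5885b3_lc.Q1

open Pool.Agent.Work.MP_5885b3_lc

theorem result :
    (¬ ∃ D : List (List ℕ) × List (List ℕ) → Prop, ComputablePred D ∧
      ∀ n : ℕ, 0 < n → ∀ m i : Fin n → Fin n → Fin n,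
        (D (table m, table i) ↔ @Representable (Fin n) (algOf m i))) ∧
    (¬ ∃ D : List (List ℕ) × List (List ℕ) → Prop, ComputablePred D ∧
      ∀ n : ℕ, 0 < n → ∀ m i : Fin n → Fin n → Fin n,
        (D (table m, table i) ↔ @FinitelyRepresentable (Fin n) (algOf m i))) := by
  have key : ∀ (n : ℕ) (m i : Fin n → Fin n → Fin n),
      @FinitelyRepresentable (Fin n) (algOf m i) → @Representable (Fin n) (algOf m i) :=
    fun n m i ⟨X, hX, _, h, H⟩ => ⟨X, hX, h, H⟩
  refine ⟨fun ⟨D, hD, h⟩ => ?_, fun ⟨D, hD, h⟩ => ?_⟩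
  · exact inseparable D hD (fun n hn m i hf => (h n hn m i).2 (key n m i hf))
      fun n hn m i hd => (h n hn m i).1 hd
  · exact inseparable D hD (fun n hn m i hf => (h n hn m i).2 hf)
      fun n hn m i hd => key n m i ((h n hn m i).1 hd)

end Pool.Agent.Results.MP_5885b3_lc.Q1
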