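import Pool.Agent.Work.MP_5885b3_lc.Defs
import Pool.Agent.Work.MP_5885b3_lc.Point

/-!
Q2: the class `RWIS` is not finitely axiomatisable and does not have the finite representation
property.
-/

namespace Pool.Agent.Results.MP_5885b3_lc.Q2

open FirstOrder Pool.Agent.Work.MP_5885b3_lc

universe u

theorem result :
    (¬ ∃ T : sig.Theory, T.Finite ∧
      ∀ (A : Type u) [sig.Structure A] [Nonempty A], (A ⊨ T ↔ Representable A)) ∧
    (¬ ∀ (A : Type u) [sig.Structure A] [Nonempty A] [Finite A],
      Representable A → FinitelyRepresentable A) :=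
  ⟨not_finitely_axiomatisable, not_frp⟩

end Pool.Agent.Results.MP_5885b3_lc.Q2
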